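import Pool.Agent.CBG.StmtsA

/-!
# Squad CBG, row BAS: change of the basis of a plane
-/

set_option autoImplicit false
set_option maxSynthPendingDepth 3

open scoped Manifold ContDiff Topology
open Set Filter MeasureTheory

namespace Pool.Agent.CBG.H98

/-- the Christoffel form is bilinear and symmetric -/
theorem chr_comb {n : ℕ} {G : Ed n → Bil (Ed n)}
    (S1 : ∀ u v w : Ed n, fderiv ℝ G 0 u v w = fderiv ℝ G 0 u w v) {v z a b c : Ed n}
    (ha : IsChr G 0 v z a) (hb : IsChr G 0 v v b) (hc : IsChr G 0 z z c) (p q r s : ℝ) :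
    IsChr G 0 (p • v + q • z) (r • v + s • z) ((p * r) • b + (p * s + q * r) • a + (q * s) • c) := by
  intro u
  have h1 := ha u
  have h2 := hb u
  have h3 := hc u
  have h4 := S1 u z v
  unfold chr at h1 h2 h3 ⊢
  simp only [map_add, map_smul, add_apply, smul_apply,
    smul_eq_mul]
  linear_combination (p * r) * h2 + (p * s + q * r) * h1 + (q * s) * h3 + (q * r) / 2 * h4

/-- **BAS** -/
theorem bas (hSYM : SymStmt) : BasStmt := by
  intro n G hG hsym v z a b c ha hb hc p q r s
  obtain ⟨S1, S2, S3⟩ := hSYM n G hG hsym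
  have S0 : ∀ v w : Ed n, G 0 v w = G 0 w v := hsym.self_of_nhds
  refine ⟨(p * r) • b + (p * s + q * r) • a + (q * s) • c,
    (p * p) • b + (p * q + q * p) • a + (q * q) • c,
    (r * r) • b + (r * s + s * r) • a + (s * s) • c, chr_comb S1 ha hb hc p q r s,
    chr_comb S1 ha hb hc p q p q, chr_comb S1 ha hb hc r s r s, ?_⟩
  unfold curv
  simp only [map_add, map_smul, add_apply, smul_apply,
    smul_eq_mul, S3 z v, S2 _ _ z v, S0 b a, S0 c a, S0 c b]
  ring

end Pool.Agent.CBG.H98
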