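import Pool.Agent.CBG.StmtsA

/-!
# Squad CBG, row CGL: the conformal theorem for `TAct`
-/

set_option autoImplicit false
set_option maxSynthPendingDepth 3

open scoped Manifold ContDiff Topology
open Set Filter MeasureTheory

namespace Pool.Agent.CBG.H98

/-- **CGL** -/
theorem cgl (hCLO : CloStmt) (hPUA : PuaStmt) (hVFX : VfxStmt) (hPSI : PsiStmt) (hDTX : DtxStmt)
    (hMAX : MaxStmt) : CglStmt := by
  intro n E _ _ _ _ _ _ Φ hΦ g hconf hsec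
  obtain ⟨⟨p, hp⟩, -⟩ := hMAX n E Φ hΦ g
  obtain ⟨ψ, X, hX, hψ0, hpar, heq, hvf⟩ := hPSI n E Φ hΦ p
  obtain ⟨hdat, hparT, hhh⟩ := hDTX n E Φ hΦ g ψ X hX hpar heq hvf
  obtain ⟨-, -, hP3, -, -⟩ := hPUA n E g
  obtain ⟨hV1, -⟩ := hVFX n E Φ hΦ
  have h0 : Φ 0 ∘ ψ = ψ := by
    funext y
    exact hΦ.zero (ψ y)
  refine hCLO n (fun t => pull g (Φ t ∘ ψ)) X hdat ?_ (fun t => hsec _ _ (hparT t)) ?_
  · filter_upwards [hpar.1] with y hy
    intro t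
    obtain ⟨c, hc, h1⟩ := hP3 (Φ t) ψ y ((hV1 t).mdifferentiable (by simp) (ψ y))
      (hy.mdifferentiableAt (by simp)) (hconf t)
    refine ⟨c, hc, ?_⟩
    show pull g (Φ t ∘ ψ) y = c • pull g (Φ 0 ∘ ψ) y
    rw [h0]
    exact h1
  · have hkey : ∀ y : Ed n, (∀ t a b, pull g (Φ t ∘ ψ) y (X a) (X b) = hh g Φ a b (Φ t (ψ y))) →
        uav (fun t => pull g (Φ t ∘ ψ)) X y ^ 2 * pull g (Φ 0 ∘ ψ) y (X (1, 0)) (X (1, 0)) *
          inv11 (fun a b => pull g (Φ 0 ∘ ψ) y (X a) (X b)) =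
        (∫ t, (√(hh g Φ (1, 0) (1, 0) (Φ t (ψ y))))⁻¹ ∂mu) ^ 2 * hh g Φ (1, 0) (1, 0) (ψ y) *
            inv11 (fun a b => hh g Φ a b (ψ y)) := by
      intro y hy
      unfold uav
      simp only [hy, hΦ.zero]
    have h00 := hkey 0 hhh.self_of_nhds
    filter_upwards [hhh] with y hy
    have h1 := hp (ψ y)
    rw [← hkey y hy, ← hψ0, ← h00] at h1
    exact h1

end Pool.Agent.CBG.H98
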